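import Pool.Agent.helper4.EC.Spec

set_option autoImplicit false

namespace Pool.Agent.helper4.EC

open Finset

universe u

theorem DI (h1 : SA_stmt.{u}) (h2 : LN_stmt.{u}) (h3 : TR_stmt.{u}) : DI_stmt.{u} := by
  intro V _ G X Y Z T hXY hXZ hYZ hXT hYT hZT
  obtain ⟨x, y, hs, hY⟩ := (h1 V G X Y).1 hXY
  obtain ⟨z, -, hz, hZ⟩ := h3 V G X Y Z x y hs hY hXZ.symm hYZ.symm
  obtain ⟨t, -, ht, hT⟩ := h3 V G X Y T x y hs hY hXT.symm hYT.symm
  have hzt : z ≠ t := by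
    rintro rfl
    exact hZT (Subtype.ext (hZ.trans hT.symm))
  have hadj := h2 V G X.1 x z t hz ht hzt
  have hzX : z ∉ X.1.erase x := fun h => hz.2.1 (mem_erase.1 h).2
  refine ⟨hZT, z, ?_, t, ?_, hadj, ?_⟩
  · rw [hZ]; exact mem_insert_self _ _
  · rw [hT]; exact mem_insert_self _ _
  · rw [hZ, erase_insert hzX, hT]

end Pool.Agent.helper4.EC
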